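import Pool.Agent.OPH.StmtsB

set_option autoImplicit false

/-!
# OPH, row EXT: extrapolation
-/

namespace Pool.Agent.OPH.H64

open Finset Pool.Agent.OPG Pool.Agent.OPH

/-- The Taylor polynomial of `log (z + 2 x)`. -/
noncomputable def TP (z : ℝ) (n : ℕ) : Polynomial ℝ :=
  Polynomial.C (Real.log z) -
    ∑ i ∈ range (n - 1), Polynomial.C ((-(2 / z)) ^ (i + 1) / ((i : ℝ) + 1)) *
      Polynomial.X ^ (i + 1)

theorem TP_deg (z : ℝ) (n : ℕ) (hn : 1 ≤ n) : (TP z n).natDegree < n := by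
  have h : (TP z n).natDegree ≤ n - 1 := by
    refine (Polynomial.natDegree_sub_le (Polynomial.C (Real.log z))
      (∑ i ∈ range (n - 1), Polynomial.C ((-(2 / z)) ^ (i + 1) / ((i : ℝ) + 1)) *
      Polynomial.X ^ (i + 1))).trans (max_le ?_ ?_)
    · rw [Polynomial.natDegree_C]
      exact Nat.zero_le _
    · refine Polynomial.natDegree_sum_le_of_forall_le _ _ (fun i hi => ?_)
      refine (Polynomial.natDegree_C_mul_X_pow_le _ _).trans ?_
      have := mem_range.mp hi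
      omega
  omega

theorem TP_eval (z : ℝ) (n : ℕ) (x : ℝ) : (TP z n).eval x =
    Real.log z - ∑ i ∈ range (n - 1), (-(2 * x / z)) ^ (i + 1) / ((i : ℝ) + 1) := by
  unfold TP
  rw [Polynomial.eval_sub, Polynomial.eval_C, Polynomial.eval_finsetSum]
  congr 1
  refine sum_congr rfl (fun i _ => ?_)
  rw [Polynomial.eval_mul, Polynomial.eval_C, Polynomial.eval_pow, Polynomial.eval_X]
  rw [div_mul_eq_mul_div, ← mul_pow]
  congr 2
  ring

theorem TP_zero (z : ℝ) (n : ℕ) : (TP z n).eval 0 = Real.log z := by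
  rw [TP_eval]
  simp

theorem TP_err (z : ℝ) (n : ℕ) (hn : 1 ≤ n) (x : ℝ) (hx : 0 ≤ x) (hxn : x ≤ (n : ℝ) ^ 2)
    (hz : 4 * (n : ℝ) ^ 2 ≤ z) : |Real.log (z + 2 * x) - (TP z n).eval x| ≤ 2 / 2 ^ n := by
  have hn1 : (1 : ℝ) ≤ (n : ℝ) := by exact_mod_cast hn
  have hz0 : 0 < z := by nlinarith
  obtain ⟨u, hu⟩ : ∃ u, u = 2 * x / z := ⟨_, rfl⟩
  have hu0 : 0 ≤ u := by
    rw [hu]
    positivity
  have hu1 : u ≤ 1 / 2 := by
    rw [hu, div_le_iff₀ hz0]
    linarith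
  have hlog : Real.log (z + 2 * x) = Real.log z + Real.log (1 + u) := by
    rw [← Real.log_mul hz0.ne' (by linarith), hu]
    congr 1
    field_simp
  have hab : |(-u)| < 1 := by
    rw [abs_neg, abs_of_nonneg hu0]
    linarith
  have h := Real.abs_log_sub_add_sum_range_le hab (n - 1)
  have hn' : n - 1 + 1 = n := by omega
  rw [hn', abs_neg, abs_of_nonneg hu0, sub_neg_eq_add] at h
  rw [hlog, TP_eval, ← hu]
  have he : Real.log z + Real.log (1 + u) -
      (Real.log z - ∑ i ∈ range (n - 1), (-u) ^ (i + 1) / ((i : ℝ) + 1)) =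
      ∑ i ∈ range (n - 1), (-u) ^ (i + 1) / ((i : ℝ) + 1) + Real.log (1 + u) := by ring
  rw [he]
  refine h.trans ?_
  have h1 : u ^ n ≤ (1 / 2) ^ n := pow_le_pow_left₀ hu0 hu1 n
  have h2 : (0 : ℝ) ≤ (1 / 2) ^ n := by positivity
  have h3 : 0 < 1 - u := by linarith
  rw [div_le_iff₀ h3]
  have h4 : (2 : ℝ) / 2 ^ n = 2 * (1 / 2) ^ n := by
    rw [one_div, inv_pow]
    ring
  rw [h4]
  nlinarith

theorem ext (lgx : LgxStmt) : ExtStmt := by
  intro c N h n y hn hc hy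
  obtain ⟨w, hw, hp⟩ := lgx n hn
  have hn1 : (1 : ℝ) ≤ (n : ℝ) := by exact_mod_cast hn
  obtain ⟨e, he⟩ : ∃ e : ℝ, e = 2 / 2 ^ n := ⟨_, rfl⟩
  have he0 : 0 ≤ e := by
    rw [he]
    positivity
  -- one term
  have hone : ∀ j : ℕ, |Real.log (y + 2 * h * j) -
      ∑ i ∈ range n, w i * Real.log (y + 2 * ((i : ℝ) + 1) ^ 2 + 2 * h * j)| ≤ 2 * n * e := by
    intro j
    obtain ⟨z, hz⟩ : ∃ z : ℝ, z = y + 2 * h * j := ⟨_, rfl⟩
    have hz4 : 4 * (n : ℝ) ^ 2 ≤ z := by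
      rw [hz]
      have : (0 : ℝ) ≤ 2 * h * j := by positivity
      linarith
    have h0 := hp (TP z n) (TP_deg z n hn)
    rw [TP_zero] at h0
    have h1 : Real.log (y + 2 * h * j) -
        ∑ i ∈ range n, w i * Real.log (y + 2 * ((i : ℝ) + 1) ^ 2 + 2 * h * j) =
        ∑ i ∈ range n, w i * ((TP z n).eval (((i : ℝ) + 1) ^ 2) -
          Real.log (z + 2 * ((i : ℝ) + 1) ^ 2)) := by
      rw [← hz, h0, ← sum_sub_distrib]
      refine sum_congr rfl (fun i _ => ?_)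
      rw [mul_sub]
      congr 3
      rw [hz]
      ring
    rw [h1]
    refine (abs_sum_le_sum_abs _ _).trans ?_
    have h2 : ∀ i ∈ range n, |w i * ((TP z n).eval (((i : ℝ) + 1) ^ 2) -
        Real.log (z + 2 * ((i : ℝ) + 1) ^ 2))| ≤ 2 * e := by
      intro i hi
      have hi' : (i : ℝ) + 1 ≤ n := by exact_mod_cast mem_range.mp hi
      have hi0 : (0 : ℝ) ≤ (i : ℝ) + 1 := by positivity
      rw [abs_mul, abs_sub_comm]
      have hterr := TP_err z n hn (((i : ℝ) + 1) ^ 2) (by positivity)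
        (pow_le_pow_left₀ hi0 hi' 2) hz4
      rw [← he] at hterr
      exact mul_le_mul (hw i) hterr (abs_nonneg _) (by norm_num)
    refine (sum_le_sum h2).trans (le_of_eq ?_)
    rw [sum_const, card_range, nsmul_eq_mul]
    ring
  -- the sum
  have hsum : |PH c N h y - ∑ i ∈ range n, w i * PH c N h (y + 2 * ((i : ℝ) + 1) ^ 2)| ≤
      N * (2 * n * e) := by
    have h1 : PH c N h y - ∑ i ∈ range n, w i * PH c N h (y + 2 * ((i : ℝ) + 1) ^ 2) =
        ∑ j ∈ range N, (c j : ℝ) * (Real.log (y + 2 * h * j) -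
          ∑ i ∈ range n, w i * Real.log (y + 2 * ((i : ℝ) + 1) ^ 2 + 2 * h * j)) := by
      unfold PH
      simp only [mul_sub, sum_sub_distrib, mul_sum]
      congr 1
      rw [sum_comm]
      refine sum_congr rfl (fun j _ => sum_congr rfl (fun i _ => ?_))
      ring
    rw [h1]
    refine (abs_sum_le_sum_abs _ _).trans ?_
    have h2 : ∀ j ∈ range N, |(c j : ℝ) * (Real.log (y + 2 * h * j) -
        ∑ i ∈ range n, w i * Real.log (y + 2 * ((i : ℝ) + 1) ^ 2 + 2 * h * j))| ≤ 2 * n * e := by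
      intro j _
      rw [abs_mul]
      have hcj : |(c j : ℝ)| ≤ 1 := by exact_mod_cast hc j
      calc _ ≤ 1 * (2 * n * e) := mul_le_mul hcj (hone j) (abs_nonneg _) (by norm_num)
        _ = _ := one_mul _
    refine (sum_le_sum h2).trans (le_of_eq ?_)
    rw [sum_const, card_range, nsmul_eq_mul]
  have hw2 : |∑ i ∈ range n, w i * PH c N h (y + 2 * ((i : ℝ) + 1) ^ 2)| ≤
      2 * ∑ i ∈ range n, |PH c N h (y + 2 * ((i : ℝ) + 1) ^ 2)| := by
    refine (abs_sum_le_sum_abs _ _).trans ?_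
    rw [mul_sum]
    refine sum_le_sum (fun i _ => ?_)
    rw [abs_mul]
    exact mul_le_mul_of_nonneg_right (hw i) (abs_nonneg _)
  have htri : |PH c N h y| ≤
      |PH c N h y - ∑ i ∈ range n, w i * PH c N h (y + 2 * ((i : ℝ) + 1) ^ 2)| +
        |∑ i ∈ range n, w i * PH c N h (y + 2 * ((i : ℝ) + 1) ^ 2)| := by
    have := abs_add_le (PH c N h y - ∑ i ∈ range n, w i * PH c N h (y + 2 * ((i : ℝ) + 1) ^ 2))
      (∑ i ∈ range n, w i * PH c N h (y + 2 * ((i : ℝ) + 1) ^ 2))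
    simpa using this
  rw [← he]
  have hN0 : (0 : ℝ) ≤ N := Nat.cast_nonneg N
  have : (N : ℝ) * (2 * n * e) ≤ N * (2 * n + 1) * e := by nlinarith [mul_nonneg hN0 he0]
  linarith

end Pool.Agent.OPH.H64
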